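import Pool.Agent.MP_c1891a_nt.H43.Spec2
import Pool.Agent.MP_c1891a_nt.H93.Push

/-! Removing the factors that vanish on cosets. -/

namespace Pool.Agent.MP_c1891a_nt.H43

open Finset Polynomial

lemma fac_conj {g G : ℤ[X]} (hg : Irreducible g) {α : ℂ} (hα : aeval α g = 0)
    (hG : aeval α G = 0) : g ∣ G := by
  have hd : g.natDegree ≠ 0 := by
    intro h0
    rw [eq_C_of_natDegree_eq_zero h0] at hα
    have h1 : g.coeff 0 = 0 := by simpa using hα
    apply hg.ne_zero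
    rw [eq_C_of_natDegree_eq_zero h0, h1, map_zero]
  have hp := hg.isPrimitive hd
  have hi := (IsPrimitive.Int.irreducible_iff_irreducible_map_cast hp).1 hg
  rw [IsPrimitive.Int.dvd_iff_map_cast_dvd_map_cast g G hp]
  have e : ∀ P : ℤ[X], aeval α (P.map (Int.castRingHom ℚ)) = aeval α P := fun P =>
    aeval_map_algebraMap ℚ α P
  exact (hi.dvd_iff_aeval_eq_zero (b := α) (by rw [e, hα])).1 (by rw [e, hG])

lemma fac_irr {F : ℤ[X]} (hF : F ≠ 0) {α : ℂ} (hα : aeval α F = 0) :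
    ∃ g : ℤ[X], Irreducible g ∧ aeval α g = 0 := by
  induction F using WfDvdMonoid.induction_on_irreducible with
  | zero => exact absurd rfl hF
  | unit u hu =>
    have := hu.map (aeval α : ℤ[X] →ₐ[ℤ] ℂ)
    exact absurd hα this.ne_zero
  | mul a i ha hi ih =>
    rw [map_mul, mul_eq_zero] at hα
    rcases hα with h1 | h1
    · exact ⟨i, hi, h1⟩
    · exact ih ha h1

/-- a monomial. -/
noncomputable def facM (μ : ℤ × ℤ) : LP := AddMonoidAlgebra.single μ 1

lemma fac_M_add (μ ν : ℤ × ℤ) : facM (μ + ν) = facM μ * facM ν := by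
  simp [facM, AddMonoidAlgebra.single_mul_single]

lemma fac_M_zero : facM 0 = 1 := rfl

lemma fac_M_pow (μ : ℤ × ℤ) (n : ℕ) : facM μ ^ n = facM ((n : ℤ) • μ) := by
  induction n with
  | zero => simp [fac_M_zero]
  | succ n ih => rw [pow_succ, ih, ← fac_M_add]; congr 1; push_cast; rw [add_smul, one_smul]

/-- the sum `∑ j, E j (u) s ^ j`. -/
noncomputable def facS (e e' : ℤ × ℤ) (E : ℤ →₀ ℤ[X]) : LP :=
  E.sum fun j p => aeval (facM e) p * facM (j • e')

lemma fac_S_add (e e' : ℤ × ℤ) (E F : ℤ →₀ ℤ[X]) :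
    facS e e' (E + F) = facS e e' E + facS e e' F :=
  Finsupp.sum_add_index' (fun _ => by simp) fun _ _ _ => by rw [map_add, add_mul]

lemma fac_S_smul (e e' : ℤ × ℤ) (p : ℤ[X]) (E : ℤ →₀ ℤ[X]) :
    facS e e' (p • E) = aeval (facM e) p * facS e e' E := by
  unfold facS
  rw [Finsupp.sum_smul_index' (fun _ => by simp), Finsupp.mul_sum]
  refine Finsupp.sum_congr fun j _ => ?_
  rw [smul_eq_mul, map_mul, mul_assoc]

lemma fac_dec (a b c d : ℤ) (h : c * a + d * b = 1) (P : LP) :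
    ∃ (n : ℕ) (E : ℤ →₀ ℤ[X]), facM (-b, a) ^ n * P = facS (-b, a) (c, d) E := by
  induction P using AddMonoidAlgebra.induction_linear with
  | zero => exact ⟨0, 0, by simp [facS]⟩
  | add P Q hP hQ =>
    obtain ⟨n, E, h1⟩ := hP
    obtain ⟨m, F, h2⟩ := hQ
    refine ⟨n + m, (X ^ m : ℤ[X]) • E + (X ^ n : ℤ[X]) • F, ?_⟩
    rw [fac_S_add, fac_S_smul, fac_S_smul, ← h1, ← h2]
    simp only [map_pow, aeval_X]
    ring
  | single μ r =>
    set i : ℤ := c * μ.2 - d * μ.1 with hi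
    refine ⟨(-i).toNat, Finsupp.single (a * μ.1 + b * μ.2) (C r * X ^ i.toNat), ?_⟩
    unfold facS
    rw [Finsupp.sum_single_index (by simp), map_mul, map_pow, aeval_X, aeval_C, fac_M_pow,
      fac_M_pow, mul_assoc, ← fac_M_add]
    have e1 : (AddMonoidAlgebra.single μ r : LP) = algebraMap ℤ LP r * facM μ := by
      rw [← Algebra.smul_def, facM, AddMonoidAlgebra.smul_single, smul_eq_mul, mul_one]
    rw [e1, mul_left_comm, ← fac_M_add]
    congr 2
    have e2 : (i.toNat : ℤ) = i + (-i).toNat := by omega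
    rw [e2]
    ext
    · simp only [Prod.fst_add, Prod.smul_fst, smul_eq_mul]
      linear_combination b * hi - μ.1 * h
    · simp only [Prod.snd_add, Prod.smul_snd, smul_eq_mul]
      linear_combination (-a) * hi - μ.2 * h

lemma fac_hom_M (x y : ℂ) (hx : x ≠ 0) (hy : y ≠ 0) (μ : ℤ × ℤ) :
    pushHom x y hx hy (facM μ) = x ^ μ.1 * y ^ μ.2 := by
  rw [facM, push_hom_single]; simp

lemma fac_hom_aeval (x y : ℂ) (hx : x ≠ 0) (hy : y ≠ 0) (μ : ℤ × ℤ) (p : ℤ[X]) :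
    pushHom x y hx hy (aeval (facM μ) p) = aeval (x ^ μ.1 * y ^ μ.2) p := by
  rw [← fac_hom_M x y hx hy]
  exact (aeval_algHom_apply (pushHom x y hx hy).toIntAlgHom _ p).symm

lemma fac_laurent (J : Finset ℤ) (c : ℤ → ℂ) (h : ∀ t : ℂ, t ≠ 0 → ∑ j ∈ J, c j * t ^ j = 0) :
    ∀ j ∈ J, c j = 0 := by
  let χ : ℤ → (ℂˣ →* ℂ) := fun j => (Units.coeHom ℂ).comp (zpowGroupHom j)
  have hχ : Function.Injective χ := by
    intro i j e
    have h2 : (2 : ℂ) ≠ 0 := two_ne_zero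
    have h1 : (2 : ℂ) ^ i = 2 ^ j := by
      simpa [χ] using DFunLike.congr_fun e (Units.mk0 2 h2)
    have h3 : (2 : ℝ) ^ i = 2 ^ j := by simpa using congrArg norm h1
    exact zpow_right_injective₀ (by norm_num) (by norm_num) h3
  refine linearIndependent_iff'.1 ((linearIndependent_monoidHom ℂˣ ℂ).comp _ hχ) J c ?_
  funext t
  rw [Finset.sum_apply, Pi.zero_apply, ← h t t.ne_zero]
  refine Finset.sum_congr rfl fun j _ => ?_
  simp [χ]

lemma fac_key (P : LP) (hP : P ≠ 0) (x y : ℂ) (hx : x ≠ 0) (hy : y ≠ 0) (a b : ℤ)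
    (hab : IsCoprime a b) (h : ∀ t : ℂ, t ≠ 0 → ev P (x * t ^ a) (y * t ^ b) = 0) :
    ∃ (G : ℤ[X]) (P' : LP), Irreducible G ∧ aeval (x ^ (-b) * y ^ a) G = 0 ∧
      P = aeval (facM (-b, a)) G * P' := by
  obtain ⟨c, d, hcd⟩ := hab
  obtain ⟨n, E, hE⟩ := fac_dec a b c d hcd P
  have hu : facM (b, -a) * facM (-b, a) = 1 := by 
    rw [← fac_M_add, ← fac_M_zero]; congr 1; ext <;> simp
  have hP' : P = facM (b, -a) ^ n * facS (-b, a) (c, d) E := by
    rw [← hE, ← mul_assoc, ← mul_pow, hu, one_pow, one_mul]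
  have hz : ∀ j, aeval (x ^ (-b) * y ^ a) (E j) = 0 := by
    intro j
    by_cases hj : j ∈ E.support
    swap
    · rw [Finsupp.notMem_support_iff.1 hj, map_zero]
    have := fac_laurent E.support
      (fun j => aeval (x ^ (-b) * y ^ a) (E j) * (x ^ c * y ^ d) ^ j) (fun t ht => by
        have h1 : x * t ^ a ≠ 0 := mul_ne_zero hx (zpow_ne_zero _ ht)
        have h2 : y * t ^ b ≠ 0 := mul_ne_zero hy (zpow_ne_zero _ ht)
        have h3 := congrArg (pushHom _ _ h1 h2) hE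
        rw [map_mul, push_hom_eq _ _ h1 h2 P, h t ht, mul_zero, facS, Finsupp.sum,
          map_sum] at h3
        rw [h3]
        refine Finset.sum_congr rfl fun j _ => ?_
        rw [map_mul, fac_hom_aeval, fac_hom_M]
        have e1 : (x * t ^ a) ^ (-b) * (y * t ^ b) ^ a = x ^ (-b) * y ^ a := by
          rw [mul_zpow, mul_zpow, ← zpow_mul, ← zpow_mul, mul_mul_mul_comm, ← zpow_add₀ ht,
            show a * -b + b * a = 0 by ring, zpow_zero, mul_one]
        have e2 : (x * t ^ a) ^ (j * c) * (y * t ^ b) ^ (j * d) = (x ^ c * y ^ d) ^ j * t ^ j := by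
          rw [mul_zpow, mul_zpow, ← zpow_mul, ← zpow_mul, mul_mul_mul_comm, ← zpow_add₀ ht,
            show a * (j * c) + b * (j * d) = j by linear_combination j * hcd, mul_zpow,
            ← zpow_mul, ← zpow_mul, mul_comm c, mul_comm d]
        simp only [Prod.smul_fst, Prod.smul_snd, smul_eq_mul]
        rw [e1, e2, mul_assoc]) j hj
    exact (mul_eq_zero.1 this).resolve_right
      (zpow_ne_zero _ (mul_ne_zero (zpow_ne_zero _ hx) (zpow_ne_zero _ hy)))
  have hE0 : E ≠ 0 := by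
    rintro rfl
    exact hP (by rw [hP']; simp [facS])
  obtain ⟨j₀, hj₀⟩ := Finsupp.support_nonempty_iff.2 hE0
  obtain ⟨G, hG, hG0⟩ := fac_irr (Finsupp.mem_support_iff.1 hj₀) (hz j₀)
  choose q hq using fun j => fac_conj hG hG0 (hz j)
  let E' : ℤ →₀ ℤ[X] := Finsupp.onFinset E.support q fun j hj => by
    rw [Finsupp.mem_support_iff, hq j]; exact mul_ne_zero hG.ne_zero hj
  have hE' : E = G • E' := by
    ext1 j; rw [Finsupp.smul_apply, smul_eq_mul, hq j]; rfl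
  refine ⟨G, facM (b, -a) ^ n * facS (-b, a) (c, d) E', hG, hG0, ?_⟩
  rw [mul_left_comm, ← fac_S_smul, ← hE', ← hP']

lemma fac_rel_mono {B B' : ℕ} (h : B ≤ B') {x y : ℂ} (hr : Rel B x y) : Rel B' x y := by
  obtain ⟨m, n, h1, h2, h3, h4⟩ := hr
  have : (B : ℤ) ≤ B' := by exact_mod_cast h
  exact ⟨m, n, h1, h2.trans this, h3.trans this, h4⟩

theorem sFac : SFac := by
  have : IsNoetherianRing LP := Algebra.FiniteType.isNoetherianRing ℤ LP
  intro P
  induction P using (wellFounded_dvdNotUnit (α := LP)).induction with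
  | _ P ih =>
  intro hP hB
  by_cases hN : NoCoset P
  · refine Or.inl ⟨P, 1, hN, ?_, fun x y hx hy => ?_⟩
    · by_contra hm
      obtain ⟨x, y, hx, hy, h0, -⟩ := hB 0
      have hc : P.coeff ≠ 0 := fun h => hP (AddMonoidAlgebra.coeff_injective (by simpa using h))
      obtain ⟨μ, hμ⟩ := Finsupp.support_nonempty_iff.2 hc
      rw [ev, Finset.sum_eq_single_of_mem μ hμ (fun ν hν hne => absurd
        ⟨ν, μ, hne, Finsupp.mem_support_iff.1 hν, Finsupp.mem_support_iff.1 hμ⟩ hm)] at h0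
      exact mul_ne_zero (mul_ne_zero (Int.cast_ne_zero.2 (Finsupp.mem_support_iff.1 hμ))
        (zpow_ne_zero _ hx)) (zpow_ne_zero _ hy) h0
    · rw [← push_hom_eq x y hx hy 1, map_one, mul_one]
  unfold NoCoset at hN
  push Not at hN
  obtain ⟨x₀, y₀, hx₀, hy₀, a₀, b₀, hab₀, hv⟩ := hN
  have hg : 0 < Int.gcd a₀ b₀ := Int.gcd_pos_iff.2 hab₀
  obtain ⟨a, b, hab, ha, hb⟩ := Int.exists_gcd_one hg
  generalize Int.gcd a₀ b₀ = g at hg ha hb
  have hab' : a ≠ 0 ∨ b ≠ 0 := Int.gcd_pos_iff.1 (by omega)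
  obtain ⟨G, P', hG, hG0, hPP⟩ := fac_key P hP x₀ y₀ hx₀ hy₀ a b
    (Int.isCoprime_iff_gcd_eq_one.2 hab) (fun t ht => by
      obtain ⟨τ, hτ⟩ := IsAlgClosed.exists_pow_nat_eq t hg
      have hτ0 : τ ≠ 0 := by rintro rfl; rw [zero_pow hg.ne'] at hτ; exact ht hτ.symm
      have := hv τ hτ0
      rwa [ha, hb, mul_comm a, mul_comm b, zpow_mul, zpow_mul, zpow_natCast, hτ] at this)
  have hev : ∀ x y : ℂ, x ≠ 0 → y ≠ 0 → ev P x y = aeval (x ^ (-b) * y ^ a) G * ev P' x y := by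
    intro x y hx hy
    rw [← push_hom_eq x y hx hy, ← push_hom_eq x y hx hy, hPP, map_mul, fac_hom_aeval]
  by_cases hT : Tor (x₀ ^ (-b) * y₀ ^ a)
  swap
  · exact Or.inr ⟨G, -b, a, _, P', hG.ne_zero, by omega,
      mul_ne_zero (zpow_ne_zero _ hx₀) (zpow_ne_zero _ hy₀), hT, hG0, hev⟩
  obtain ⟨n, hn, hρ⟩ := hT
  obtain ⟨W, hW⟩ : G ∣ X ^ n - 1 := fac_conj hG hG0 (by simp only [map_sub, map_pow, aeval_X, hρ]; simp)
  have hP' : P' ≠ 0 := by rintro rfl; exact hP (by rw [hPP, mul_zero])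
  have hB' : Big P' := by
    intro B
    obtain ⟨x, y, hx, hy, h0, hr⟩ := hB (max B (n * (a.natAbs + b.natAbs)))
    refine ⟨x, y, hx, hy, ?_, fun h => hr (fac_rel_mono (le_max_left _ _) h)⟩
    rw [hev x y hx hy] at h0
    refine (mul_eq_zero.1 h0).resolve_left fun h1 => hr (fac_rel_mono (le_max_right _ _) ?_)
    have h2 := congrArg (aeval (x ^ (-b) * y ^ a)) hW
    rw [map_mul, h1, zero_mul, map_sub, map_pow, aeval_X, map_one, sub_eq_zero] at h2
    have hn' : (0 : ℤ) < n := by exact_mod_cast hn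
    refine ⟨-b * n, a * n, ?_, ?_, ?_, ?_⟩
    · rcases hab' with h | h
      · exact Or.inr (mul_ne_zero h hn'.ne')
      · exact Or.inl (mul_ne_zero (neg_ne_zero.2 h) hn'.ne')
    · rw [abs_mul, abs_neg, abs_of_pos hn']; push_cast
      nlinarith [abs_nonneg a, abs_nonneg b]
    · rw [abs_mul, abs_of_pos hn']; push_cast
      nlinarith [abs_nonneg a, abs_nonneg b]
    · rw [zpow_mul, zpow_mul, zpow_natCast, zpow_natCast, ← mul_pow, h2]
  have hnu : ¬ IsUnit (aeval (facM (-b, a)) G) := by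
    intro hu
    have := (hu.map (pushHom x₀ y₀ hx₀ hy₀)).ne_zero
    rw [fac_hom_aeval] at this
    exact this hG0
  have hm : ∀ (R : LP) (x y : ℂ), x ≠ 0 → y ≠ 0 →
      ev (aeval (facM (-b, a)) G * R) x y = aeval (x ^ (-b) * y ^ a) G * ev R x y := by
    intro R x y hx hy
    rw [← push_hom_eq x y hx hy, ← push_hom_eq x y hx hy, map_mul, fac_hom_aeval]
  rcases ih P' ⟨hP', _, hnu, by rw [hPP, mul_comm]⟩ hP' hB' with
    ⟨Q, Q', h1, h2, h3⟩ | ⟨G', a', b', ρ, Q', h1, h2, h3, h4, h5, h6⟩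
  · refine Or.inl ⟨Q, aeval (facM (-b, a)) G * Q', h1, h2, fun x y hx hy => ?_⟩
    rw [hev x y hx hy, hm Q' x y hx hy, h3 x y hx hy]; ring
  · refine Or.inr ⟨G', a', b', ρ, aeval (facM (-b, a)) G * Q', h1, h2, h3, h4, h5,
      fun x y hx hy => ?_⟩
    rw [hev x y hx hy, hm Q' x y hx hy, h6 x y hx hy]; ring

end Pool.Agent.MP_c1891a_nt.H43
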