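import Pool.Agent.MP_c1891a_nt.H43.Spec

/-! The arcs of the curve are transcendental. -/

namespace Pool.Agent.MP_c1891a_nt.H43

open Finset Polynomial Filter Topology

lemma al_ex (P : LP) (v₁ v₂ : ℤ) (μ : ℤ × ℤ) (hμ : μ ∈ P.coeff.support) :
    (ex P v₁ v₂ μ : ℤ) = A1 P v₁ v₂ + v₁ * μ.1 + v₂ * μ.2 := by
  have h : max μ.1.natAbs μ.2.natAbs ≤ Rn P :=
    Finset.le_sup (f := fun μ : ℤ × ℤ => max μ.1.natAbs μ.2.natAbs) hμ
  have h1 : |μ.1| ≤ (Rn P : ℤ) := by
    have := (le_max_left _ _).trans h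
    rw [← Int.natCast_natAbs]; exact_mod_cast this
  have h2 : |μ.2| ≤ (Rn P : ℤ) := by
    have := (le_max_right _ _).trans h
    rw [← Int.natCast_natAbs]; exact_mod_cast this
  unfold ex
  apply Int.toNat_of_nonneg
  have e : (A1 P v₁ v₂ : ℤ) = Rn P * |v₁| + Rn P * |v₂| := by
    unfold A1; push_cast; ring
  have a1 : |v₁ * μ.1| ≤ Rn P * |v₁| := by
    rw [abs_mul, mul_comm]; exact mul_le_mul_of_nonneg_right h1 (abs_nonneg _)
  have a2 : |v₂ * μ.2| ≤ Rn P * |v₂| := by
    rw [abs_mul, mul_comm]; exact mul_le_mul_of_nonneg_right h2 (abs_nonneg _)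
  have := neg_abs_le (v₁ * μ.1)
  have := neg_abs_le (v₂ * μ.2)
  omega

lemma al_eval (P : LP) (p q : ℂ) (hp : p ≠ 0) (hq : q ≠ 0) :
    (F2 P (1 : ℂ) 1 0 1 1 0).evalEval p q = p ^ A1 P 0 1 * q ^ A1 P 1 0 * ev P q p := by
  unfold F2 ev
  rw [evalEval_finsetSum, Finset.mul_sum]
  refine Finset.sum_congr rfl fun μ hμ => ?_
  simp only [evalEval_mul, evalEval_C, evalEval_pow, evalEval_X, eval_mul, eval_C, eval_pow,
    eval_X, one_zpow, mul_one]
  rw [← zpow_natCast p (ex P 0 1 μ), ← zpow_natCast q (ex P 1 0 μ), al_ex P 0 1 μ hμ,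
    al_ex P 1 0 μ hμ]
  simp only [zero_mul, one_mul, add_zero, zpow_add₀ hp, zpow_add₀ hq, zpow_natCast]
  ring

lemma al_E_ne (t : ℝ) : E t ≠ 0 := Complex.exp_ne_zero _

/-- the character with frequency `l`. -/
noncomputable def alChar (l : ℂ) : Multiplicative ℂ →* ℂ where
  toFun z := Complex.exp (l * z.toAdd)
  map_one' := by simp
  map_mul' a b := by simp [mul_add, Complex.exp_add]

lemma al_char_inj : Function.Injective alChar := by
  intro a b h
  have h1 : ∀ z : ℂ, Complex.exp (a * z) = Complex.exp (b * z) := fun z =>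
    DFunLike.congr_fun h (Multiplicative.ofAdd z)
  have ha : HasDerivAt (fun z : ℂ => Complex.exp (a * z)) a 0 := by
    simpa using ((hasDerivAt_id (0 : ℂ)).const_mul a).cexp
  have hb : HasDerivAt (fun z : ℂ => Complex.exp (b * z)) b 0 := by
    simpa using ((hasDerivAt_id (0 : ℂ)).const_mul b).cexp
  rw [show (fun z : ℂ => Complex.exp (a * z)) = fun z : ℂ => Complex.exp (b * z) from
    funext h1] at ha
  exact ha.unique hb

lemma al_entire (P : LP) (c c₀ v₁ : ℝ)
    (h : ∀ᶠ v in 𝓝 v₁, ev P (E (c * v + c₀)) (E v) = 0) (z : ℂ) :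
    ev P (E c₀ * Complex.exp (2 * Real.pi * Complex.I * c * z))
      (Complex.exp (2 * Real.pi * Complex.I * z)) = 0 := by
  set F : ℂ → ℂ := fun z => ev P (E c₀ * Complex.exp (2 * Real.pi * Complex.I * c * z))
      (Complex.exp (2 * Real.pi * Complex.I * z)) with hF
  have hd : Differentiable ℂ F := by
    unfold ev at hF
    rw [hF]
    refine Differentiable.fun_sum fun μ _ => ?_
    refine Differentiable.mul (Differentiable.const_mul ?_ _) ?_
    · exact Differentiable.zpow (by fun_prop)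
        (Or.inl fun z => mul_ne_zero (al_E_ne _) (Complex.exp_ne_zero _))
    · exact Differentiable.zpow (by fun_prop) (Or.inl fun z => Complex.exp_ne_zero _)
  have ha : AnalyticOnNhd ℂ F Set.univ := fun z _ => hd.analyticAt z
  have hr : ∀ᶠ v : ℝ in 𝓝 v₁, F v = 0 := by
    filter_upwards [h] with v hv
    rw [← hv, hF]
    simp only [E]
    congr 1
    rw [← Complex.exp_add]; congr 1; push_cast; ring
  have hfr : ∃ᶠ w in 𝓝[≠] (v₁ : ℂ), F w = 0 := by
    have ht : Tendsto (fun v : ℝ => (v : ℂ)) (𝓝[≠] v₁) (𝓝[≠] (v₁ : ℂ)) := by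
      refine tendsto_nhdsWithin_of_tendsto_nhds_of_eventually_within _
        (Complex.continuous_ofReal.continuousAt.tendsto.mono_left nhdsWithin_le_nhds) ?_
      filter_upwards [self_mem_nhdsWithin] with v hv
      simpa using hv
    exact ht.frequently ((hr.filter_mono nhdsWithin_le_nhds).frequently)
  exact ha.eqOn_zero_of_preconnected_of_frequently_eq_zero isPreconnected_univ
    (Set.mem_univ _) hfr (Set.mem_univ z)

theorem sAL (h : SLin) : SAL := by
  intro P hP γ v₁ hγ hev W hW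
  by_contra hW0
  have hG : F2 P (1 : ℂ) 1 0 1 1 0 ≠ 0 := by
    obtain ⟨t, ht, h1⟩ := hP 1 1 one_ne_zero one_ne_zero 1 0 (Or.inl one_ne_zero)
    intro h0
    have := al_eval P (1 * t ^ (0 : ℤ)) (1 * t ^ (1 : ℤ)) (by simp) (by simpa using ht)
    rw [h0, evalEval_zero] at this
    exact mul_ne_zero (mul_ne_zero (by simp) (by simp [ht])) h1 this.symm
  obtain ⟨c, c₀, hc⟩ := h γ v₁ hγ W _ hW0 hG hW (by
    filter_upwards [hev] with v hv
    rw [al_eval P _ _ (al_E_ne _) (al_E_ne _), hv, mul_zero])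
  have hz := al_entire P c c₀ v₁ (by
    filter_upwards [hev, hc] with v hv hv'
    rwa [hv'] at hv)
  have hpi : (2 * Real.pi * Complex.I : ℂ) ≠ 0 := Complex.two_pi_I_ne_zero
  by_cases hirr : Irrational c
  · obtain ⟨t, -, h1⟩ := hP 1 1 one_ne_zero one_ne_zero 1 0 (Or.inl one_ne_zero)
    apply h1
    let l : ℤ × ℤ → ℂ := fun μ => 2 * Real.pi * Complex.I * (c * μ.1 + μ.2)
    have hl : Function.Injective l := by
      intro μ ν e
      have e1 : ((c * μ.1 + μ.2 : ℝ) : ℂ) = ((c * ν.1 + ν.2 : ℝ) : ℂ) := by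
        push_cast; exact mul_left_cancel₀ hpi e
      have e2 : c * μ.1 + μ.2 = c * ν.1 + ν.2 := by exact_mod_cast e1
      by_cases e3 : μ.1 = ν.1
      · rw [e3] at e2
        exact Prod.ext e3 (by exact_mod_cast add_left_cancel e2)
      · exfalso
        have e4 : ((μ.1 - ν.1 : ℤ) : ℝ) ≠ 0 := by exact_mod_cast sub_ne_zero.2 e3
        refine hirr.ne_rational (ν.2 - μ.2) (μ.1 - ν.1) ?_
        rw [eq_div_iff e4]; push_cast; linarith
    have hli := (linearIndependent_monoidHom (Multiplicative ℂ) ℂ).comp _ (al_char_inj.comp hl)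
    have h0 := linearIndependent_iff'.1 hli P.coeff.support
      (fun μ => (P.coeff μ : ℂ) * E c₀ ^ μ.1) (by
        funext z
        rw [Finset.sum_apply, Pi.zero_apply, ← hz z.toAdd]
        unfold ev
        refine Finset.sum_congr rfl fun μ _ => ?_
        simp only [Function.comp, Pi.smul_apply, smul_eq_mul, alChar, MonoidHom.coe_mk,
          OneHom.coe_mk, l, mul_zpow, ← Complex.exp_int_mul]
        rw [mul_assoc (_ : ℂ) (_ * _), mul_assoc (E c₀ ^ μ.1), ← Complex.exp_add, mul_assoc]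
        congr 3; ring)
    unfold ev
    refine Finset.sum_eq_zero fun μ hμ => ?_
    have := (mul_eq_zero.1 (h0 μ hμ)).resolve_right (zpow_ne_zero _ (al_E_ne _))
    rw [this]; simp
  · obtain ⟨r, hr⟩ : ∃ r : ℚ, (r : ℝ) = c := by simpa [Irrational] using hirr
    have hb : (r.den : ℤ) ≠ 0 := by exact_mod_cast r.den_ne_zero
    obtain ⟨t, ht, h1⟩ := hP (E c₀) 1 (al_E_ne _) one_ne_zero r.num r.den (Or.inr hb)
    apply h1
    have hbc : (r.den : ℂ) ≠ 0 := by exact_mod_cast r.den_ne_zero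
    have hcc : (c : ℂ) = r.num / r.den := by
      rw [← hr, Complex.ofReal_ratCast, Rat.cast_def]
    have := hz (r.den * Complex.log t / (2 * Real.pi * Complex.I))
    rw [show 2 * Real.pi * Complex.I * c * (r.den * Complex.log t / (2 * Real.pi * Complex.I)) =
        (r.num : ℤ) * Complex.log t by rw [hcc]; field_simp,
      show 2 * Real.pi * Complex.I * (r.den * Complex.log t / (2 * Real.pi * Complex.I)) =
        ((r.den : ℤ) : ℂ) * Complex.log t by push_cast; field_simp,
      Complex.exp_int_mul, Complex.exp_int_mul, Complex.exp_log ht] at this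
    rwa [one_mul]

end Pool.Agent.MP_c1891a_nt.H43
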